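import Mathlib
import Pool.Agent.CpTheory.Monolithic

set_option autoImplicit false

open Topology Filter Set

namespace Pool.Agent.Results.MP_ba5606_gt.SeparableReduction

universe u

/-- `X` is `ω`-monolithic: the closure of every countable set has a countable network. -/
def Monolithic (X : Type u) [TopologicalSpace X] : Prop :=
  ∀ A : Set X, A.Countable → ∃ 𝒩 : Set (Set (closure A)), 𝒩.Countable ∧
    ∀ (x : closure A) (U : Set (closure A)), IsOpen U → x ∈ U → ∃ N ∈ 𝒩, x ∈ N ∧ N ⊆ U

/-- `C_p(X)`: the continuous real functions on `X` with the topology of pointwise convergence. -/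
abbrev Cp (X : Type u) [TopologicalSpace X] : Type u := {f : X → ℝ // Continuous f}

/-- **Reduction to separable and to monolithic spaces.**  Let `X` be compact Hausdorff with
`C_p(C_p(X))` Lindelöf.  Then `C_p(X)` is Lindelöf iff `C_p(F)` is normal for every separable closed
subspace `F`, and this is the case if `X` is `ω`-monolithic.  Hence, if `C_p(C_p(X))` Lindelöf
implies `C_p(X)` Lindelöf for all separable compact spaces then it does so for all compact
spaces. -/
theorem result :
    (∀ (X : Type u) [TopologicalSpace X] [CompactSpace X] [T2Space X],
      LindelofSpace (Cp (Cp X)) →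
        (Monolithic X → LindelofSpace (Cp X)) ∧
        (LindelofSpace (Cp X) ↔ ∀ A : Set X, A.Countable → NormalSpace (Cp (closure A)))) ∧
    ((∀ (X : Type u) [TopologicalSpace X] [CompactSpace X] [T2Space X]
        [TopologicalSpace.SeparableSpace X], LindelofSpace (Cp (Cp X)) → LindelofSpace (Cp X)) →
      ∀ (X : Type u) [TopologicalSpace X] [CompactSpace X] [T2Space X],
        LindelofSpace (Cp (Cp X)) → LindelofSpace (Cp X)) := by
  refine ⟨fun X _ _ _ hL => ⟨fun hmono => ?_, ?_, ?_⟩, fun hsep X _ _ _ hL => ?_⟩
  · exact CpExtent.lindelof_Cp_of_monolithic hmono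
  · intro hC A _
    have hA : IsClosed (closure A) := isClosed_closure
    have : LindelofSpace (Cp (closure A)) := ⟨by
      have h1 := isLindelof_range (CpExtent.continuous_res (X := X) (closure A))
      rwa [(CpExtent.surjective_res hA).range_eq] at h1⟩
    exact inferInstance
  · exact fun hnor => CpExtent.lindelof_Cp_of_normal hnor
  · refine CpExtent.lindelof_Cp_of_normal fun A hA => ?_
    have hcl : IsClosed (closure A) := isClosed_closure
    have : CompactSpace (closure A) := isCompact_iff_compactSpace.mp hcl.isCompact
    have : TopologicalSpace.SeparableSpace (closure A) := by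
      refine ⟨⟨Subtype.val ⁻¹' A, hA.preimage Subtype.val_injective, ?_⟩⟩
      intro z
      rw [closure_subtype]
      rw [Subtype.image_preimage_coe, inter_eq_self_of_subset_right subset_closure]
      exact z.2
    have h2 : LindelofSpace (Cp (Cp (closure A))) := CpExtent.lindelof_CpCp_closed hcl
    have : LindelofSpace (Cp (closure A)) := hsep (closure A) h2
    exact inferInstance

end Pool.Agent.Results.MP_ba5606_gt.SeparableReduction
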